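import Pool.Agent.Helper29.RBM43b

set_option autoImplicit false

namespace Pool.Agent.Results.MP_dabbe0_pr.RBM43NotUniversal

/-- The 0/1 value of a binary unit. -/
def bit (x : Bool) : ℝ := if x then 1 else 0

/-- The unnormalised weight `∑_h exp(bᵀv + cᵀh + vᵀWh)` of a visible word `v`
in the restricted Boltzmann machine with `n` visible and `m` hidden binary units. -/
noncomputable def weight {n m : ℕ} (W : Fin n → Fin m → ℝ) (b : Fin n → ℝ) (c : Fin m → ℝ)
    (v : Fin n → Bool) : ℝ :=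
  ∑ h : Fin m → Bool, Real.exp (∑ i, b i * bit (v i) + ∑ j, c j * bit (h j)
    + ∑ i, ∑ j, bit (v i) * W i j * bit (h j))

/-- The distribution `p_{W,b,c}` on `{0,1}^n`. -/
noncomputable def dist {n m : ℕ} (W : Fin n → Fin m → ℝ) (b : Fin n → ℝ) (c : Fin m → ℝ)
    (v : Fin n → Bool) : ℝ :=
  weight W b c v / ∑ v' : Fin n → Bool, weight W b c v'

/-- The model `RBM(n,m)`: the set of all distributions `p_{W,b,c}`. -/
def RBM (n m : ℕ) : Set ((Fin n → Bool) → ℝ) :=
  {p | ∃ (W : Fin n → Fin m → ℝ) (b : Fin n → ℝ) (c : Fin m → ℝ), p = dist W b c}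

/-- `RBM(4,3)` is not a universal approximator: some probability distribution on `{0,1}^4`
is not a limit of distributions in `RBM(4,3)`. -/
theorem result : ∃ q ∈ stdSimplex ℝ (Fin 4 → Bool), q ∉ closure (RBM 4 3) := by
  refine ⟨Pool.Agent.Helper29.RBM43.q0, ⟨Pool.Agent.Helper29.RBM43.q0_nonneg,
    Pool.Agent.Helper29.RBM43.q0_sum⟩, ?_⟩
  intro hq
  rw [Metric.mem_closure_iff] at hq
  obtain ⟨p, ⟨W, b, c, hp⟩, hd⟩ := hq (1/100000) (by norm_num)
  have key : ∀ v, weight W b c v = ∑ h : Fin 3 → Bool,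
      Real.exp (Pool.Agent.Helper29.RBM43.E (fun i j => W j i) b c h v) := by
    intro v
    unfold weight Pool.Agent.Helper29.RBM43.E
    refine Finset.sum_congr rfl (fun h _ => ?_)
    congr 1
    simp only [Fin.sum_univ_three, Fin.sum_univ_four, bit]
    ring
  apply Pool.Agent.Helper29.RBM43.far (fun i j => W j i) b c
  intro v
  have h1 : dist W b c v = (∑ h : Fin 3 → Bool,
      Real.exp (Pool.Agent.Helper29.RBM43.E (fun i j => W j i) b c h v)) /
      ∑ v' : Fin 4 → Bool, ∑ h : Fin 3 → Bool,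
        Real.exp (Pool.Agent.Helper29.RBM43.E (fun i j => W j i) b c h v') := by
    unfold dist
    rw [key]
    congr 1
    exact Finset.sum_congr rfl (fun v' _ => key v')
  rw [← h1]
  have h2 : Dist.dist (Pool.Agent.Helper29.RBM43.q0 v) (p v) < 1/100000 :=
    lt_of_le_of_lt (dist_le_pi_dist _ _ v) hd
  rw [hp, Real.dist_eq, abs_sub_comm] at h2
  exact h2

end Pool.Agent.Results.MP_dabbe0_pr.RBM43NotUniversal
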